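import Pool.Agent.H97.PW.Mul

/-!
# Sums over lists in the model of `Pool.Agent.H92.SR`, and the two sums of one round
-/

set_option autoImplicit false

namespace Pool.Agent.H97.PW

open Pool.Agent.H92.SR Pool.Agent.H92.SR.Tr

/-- the elements of a list coded on the right spine -/
def els : Tr → List Tr
  | leaf => []
  | node a b => a :: els b

/-- one step of the summation of `G (node e p)` over a list -/
def sst (G : Tr → Tr) (st : Tr) : Tr :=
  node (snd (fst st)) (node (fst (snd st))
    (add (snd (snd st)) (G (node (fst (fst st)) (fst (snd st))))))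

/-- the sum of `G (node e p)` over the list `Lt` -/
def sm (G : Tr → Tr) (Lt p : Tr) : Tr := snd (snd ((sst G)^[len Lt] (node Lt (node p leaf))))

theorem sst_it (G : Tr → Tr) (p Lt : Tr) : ∀ acc : Tr,
    vl (snd (snd ((sst G)^[len Lt] (node Lt (node p acc))))) =
      vl acc + ((els Lt).map fun e => vl (G (node e p))).sum := by
  induction Lt with
  | leaf =>
    intro acc
    simp [len, snd, els]
  | node a b _ ih =>
    intro acc
    rw [len, Function.iterate_succ_apply]
    have e : sst G (node (node a b) (node p acc)) =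
        node b (node p (add acc (G (node a p)))) := rfl
    rw [e, ih, vl_add]
    simp only [els, List.map_cons, List.sum_cons]
    ring

theorem vl_sm (G : Tr → Tr) (Lt p : Tr) :
    vl (sm G Lt p) = ((els Lt).map fun e => vl (G (node e p))).sum := by
  unfold sm
  rw [sst_it]
  simp [vl]

theorem sst_size {G : Tr → Tr} {q : Polynomial ℕ} (hq : ∀ v, size (G v) ≤ q.eval (size v))
    (st : Tr) (i : ℕ) :
    size (fst ((sst G)^[i] st)) ≤ size st ∧ size (fst (snd ((sst G)^[i] st))) ≤ size st ∧
    len (snd (snd ((sst G)^[i] st))) ≤ size st + i * (q.eval (2 * size st + 1) + 1) ∧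
    size (snd (snd ((sst G)^[i] st))) ≤
      4 * (size st + i * (q.eval (2 * size st + 1) + 1)) + 5 := by
  induction i with
  | zero =>
    simp only [Function.iterate_zero, id]
    have h1 := size_fst_le st
    have h2 := size_snd_le st
    have h3 := size_fst_le (snd st)
    have h4 := size_snd_le (snd st)
    have h8 := len_le_size (snd (snd st))
    refine ⟨?_, ?_, ?_, ?_⟩ <;> omega
  | succ i ih =>
    rw [Function.iterate_succ_apply']
    obtain ⟨h1, h2, h3, h4⟩ := ih
    generalize (sst G)^[i] st = w at *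
    have k0 : size (G (node (fst (fst w)) (fst (snd w)))) ≤ q.eval (2 * size st + 1) := by
      refine (hq _).trans (poly_mono q ?_)
      have := size_fst_le (fst w)
      simp only [size]
      omega
    have e : (i + 1) * (q.eval (2 * size st + 1) + 1) =
        i * (q.eval (2 * size st + 1) + 1) + (q.eval (2 * size st + 1) + 1) := by ring
    rw [e]
    generalize i * (q.eval (2 * size st + 1) + 1) = K at *
    generalize q.eval (2 * size st + 1) = Q at *
    have k1 := size_snd_le (fst w)
    have k2 := len_le_size (G (node (fst (fst w)) (fst (snd w))))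
    have k7 := len_add (snd (snd w)) (G (node (fst (fst w)) (fst (snd w))))
    have k10 := size_add (snd (snd w)) (G (node (fst (fst w)) (fst (snd w))))
    have q1 : fst (sst G w) = snd (fst w) := rfl
    have q2 : fst (snd (sst G w)) = fst (snd w) := rfl
    have q3 : snd (snd (sst G w)) =
      add (snd (snd w)) (G (node (fst (fst w)) (fst (snd w)))) := rfl
    rw [q1, q2, q3]
    refine ⟨?_, ?_, ?_, ?_⟩ <;> omega

theorem sm' {G : Tr → Tr} (hG : FP G) {A B : Tr → Tr} (hA : FP A) (hB : FP B) :
    FP (fun v => sm G (A v) (B v)) := by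
  obtain ⟨q, hq⟩ := hG.size_bound
  have h1 : FP (sst G) := FP.node' (FP.snd' (FP.fst' FP.id')) (FP.node' (FP.fst' (FP.snd' FP.id'))
    (FP.add' (FP.snd' (FP.snd' FP.id')) (FP.comp' hG
      (FP.node' (FP.fst' (FP.fst' FP.id')) (FP.fst' (FP.snd' FP.id'))))))
  have h2 := FP.iterate_poly h1 hA (FP.node' hA (FP.node' hB FP.leaf'))
    (6 * Polynomial.X + 4 * (Polynomial.X * (q.comp (2 * Polynomial.X + 1) + 1)) + 7)
    (fun x i => by
      obtain ⟨h1, h2, _, h4⟩ := sst_size hq x i
      have k1 := size_le_split ((sst G)^[i] x)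
      have k2 := size_le_split (snd ((sst G)^[i] x))
      simp only [Polynomial.eval_mul, Polynomial.eval_ofNat, Polynomial.eval_comp,
        Polynomial.eval_add, Polynomial.eval_X, Polynomial.eval_one]
      have k3 : q.eval (2 * size x + 1) ≤ q.eval (2 * (size x + i) + 1) :=
        poly_mono q (by omega)
      have k4 : i * (q.eval (2 * size x + 1) + 1) ≤
          (size x + i) * (q.eval (2 * (size x + i) + 1) + 1) :=
        Nat.mul_le_mul (by omega) (by omega)
      omega)
  exact FP.snd' (FP.snd' h2)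

/-- `√(a d)` if `a d` is a square, `0` otherwise -/
def yy (a d : ℕ) : ℕ := if Nat.sqrt (a * d) ^ 2 = a * d then Nat.sqrt (a * d) else 0

/-- the term of the entry `node d w` and the radicand `a`, for the weight `W w` -/
def gt (W : Tr → Tr) (v : Tr) : Tr :=
  if ltb (mul (sqr (mul (snd v) (fst (fst v))) leaf) (sqr (mul (snd v) (fst (fst v))) leaf))
      (mul (snd v) (fst (fst v))) = true then leaf
  else mul (sqr (mul (snd v) (fst (fst v))) leaf) (W (snd (fst v)))

theorem vl_gt (W : Tr → Tr) (d w a : Tr) :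
    vl (gt W (node (node d w) a)) = yy (vl a) (vl d) * vl (W w) := by
  have e : gt W (node (node d w) a) =
      if ltb (mul (sqr (mul a d) leaf) (sqr (mul a d) leaf)) (mul a d) = true then leaf
      else mul (sqr (mul a d) leaf) (W w) := rfl
  have h1 : vl (sqr (mul a d) leaf) = Nat.sqrt (vl a * vl d) := by
    rw [(sqr_spec _ _).1, vl_mul]
    simp [len]
  have h2 : ltb (mul (sqr (mul a d) leaf) (sqr (mul a d) leaf)) (mul a d) = true ↔
      Nat.sqrt (vl a * vl d) * Nat.sqrt (vl a * vl d) < vl a * vl d := by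
    rw [ltb_iff, vl_mul, vl_mul, h1]
  have h3 := Nat.sqrt_le (vl a * vl d)
  rw [e]
  unfold yy
  rw [pow_two]
  by_cases hc : Nat.sqrt (vl a * vl d) * Nat.sqrt (vl a * vl d) < vl a * vl d
  · rw [if_pos (h2.2 hc), if_neg (by omega)]
    simp [vl]
  · rw [if_neg (by rw [h2]; exact hc), if_pos (by omega), vl_mul, h1]

theorem ltb' {X Y : Tr → Tr} (hX : FP X) (hY : FP Y) : FP (fun v => bit (ltb (X v) (Y v))) :=
  FP.sc2 gs g3 false (FP.cat' hX hY) hX hY

theorem gt' {W : Tr → Tr} (hW : FP W) : FP (gt W) := by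
  have h1 : FP (fun v => mul (snd v) (fst (fst v))) :=
    mul' (FP.snd' FP.id') (FP.fst' (FP.fst' FP.id'))
  have h2 := FP.sqr' h1 FP.leaf'
  exact FP.iteB (ltb' (mul' h2 h2) h1) FP.leaf' (mul' h2 (FP.comp' hW (FP.snd' (FP.fst' FP.id'))))

/-- the sum over a vector, for one radicand: on `node a V` -/
def gs1 (W : Tr → Tr) (v : Tr) : Tr := sm (gt W) (snd v) (fst v)

/-- the sum over a list of radicands and a vector -/
def tot (W : Tr → Tr) (Lt V : Tr) : Tr := sm (gs1 W) Lt V

theorem gs1' {W : Tr → Tr} (hW : FP W) : FP (gs1 W) :=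
  sm' (gt' hW) (FP.snd' FP.id') (FP.fst' FP.id')

theorem tot' {W : Tr → Tr} (hW : FP W) {A B : Tr → Tr} (hA : FP A) (hB : FP B) :
    FP (fun v => tot W (A v) (B v)) :=
  sm' (gs1' hW) hA hB

/-- code of a vector -/
def encV : List (ℕ × ℕ × ℕ) → Tr
  | [] => leaf
  | e :: V => node (node (encN e.1) (node (encN e.2.1) (encN e.2.2))) (encV V)

theorem els_encV (V : List (ℕ × ℕ × ℕ)) : els (encV V) =
    V.map fun e => node (encN e.1) (node (encN e.2.1) (encN e.2.2)) := by
  induction V with
  | nil => rfl
  | cons e V ih => simp only [encV, els, ih, List.map_cons]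

theorem els_encL (L : List ℕ) : els (encL L) = L.map encN := by
  induction L with
  | nil => rfl
  | cons a L ih => simp only [encL, els, ih, List.map_cons]

/-- the sum with the weights `w` -/
def ttl (w : ℕ × ℕ → ℕ) (L : List ℕ) (V : List (ℕ × ℕ × ℕ)) : ℕ :=
  (L.map fun a => (V.map fun e => yy a e.1 * w e.2).sum).sum

theorem vl_tot {W : Tr → Tr} {w : ℕ × ℕ → ℕ}
    (hw : ∀ p m : ℕ, vl (W (node (encN p) (encN m))) = w (p, m)) (L : List ℕ)
    (V : List (ℕ × ℕ × ℕ)) : vl (tot W (encL L) (encV V)) = ttl w L V := by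
  unfold tot ttl
  rw [vl_sm, els_encL, List.map_map]
  refine congrArg List.sum (List.map_congr_left fun a _ => ?_)
  show vl (sm (gt W) (encV V) (encN a)) = _
  rw [vl_sm, els_encV, List.map_map]
  refine congrArg List.sum (List.map_congr_left fun e _ => ?_)
  show vl (gt W (node (node (encN e.1) (node (encN e.2.1) (encN e.2.2))) (encN a))) = _
  rw [vl_gt, hw, vl_encN, vl_encN]

end Pool.Agent.H97.PW
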