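import Pool.Agent.H92.SR.Rnd

/-!
# Multiplication in the model of `Pool.Agent.H92.SR`
-/

set_option autoImplicit false

namespace Pool.Agent.H97.PW

open Pool.Agent.H92.SR Pool.Agent.H92.SR.Tr

/-- one step of the multiplication, on states `node x (node y acc)` -/
def mstp (st : Tr) : Tr :=
  node (snd (fst st)) (node (node leaf (fst (snd st)))
    (if fst (fst st) = leaf then snd (snd st) else add (snd (snd st)) (fst (snd st))))

/-- the product -/
def mul (x y : Tr) : Tr := snd (snd (mstp^[len x] (node x (node y leaf))))

theorem mstp_it (x : Tr) : ∀ y acc : Tr,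
    vl (snd (snd (mstp^[len x] (node x (node y acc))))) = vl acc + vl x * vl y := by
  induction x with
  | leaf =>
    intro y acc
    simp [len, snd, vl]
  | node a b _ ih =>
    intro y acc
    rw [len, Function.iterate_succ_apply]
    have e : mstp (node (node a b) (node y acc)) =
        node b (node (node leaf y) (if a = leaf then acc else add acc y)) := rfl
    rw [e, ih]
    by_cases ha : a = leaf
    · subst ha
      simp only [vl, if_true, bt_leaf, nb]
      simp
      ring
    · have hb : bt a = true := by simp [bt, ha]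
      simp only [vl, if_neg ha, vl_add, bt_leaf, nb, hb]
      simp
      ring

theorem vl_mul (x y : Tr) : vl (mul x y) = vl x * vl y := by
  unfold mul
  rw [mstp_it]
  simp [vl]

theorem mstp_size (st : Tr) (i : ℕ) :
    size (fst (mstp^[i] st)) ≤ size st ∧ size (fst (snd (mstp^[i] st))) ≤ size st + 2 * i ∧
    len (fst (snd (mstp^[i] st))) ≤ size st + i ∧
    len (snd (snd (mstp^[i] st))) ≤ size st + i * (size st + i + 1) ∧
    size (snd (snd (mstp^[i] st))) ≤ 4 * (size st + i * (size st + i + 1)) + 5 := by
  induction i with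
  | zero =>
    simp only [Function.iterate_zero, id]
    have h1 := size_fst_le st
    have h2 := size_snd_le st
    have h3 := size_fst_le (snd st)
    have h4 := size_snd_le (snd st)
    have h7 := len_le_size (fst (snd st))
    have h8 := len_le_size (snd (snd st))
    refine ⟨?_, ?_, ?_, ?_, ?_⟩ <;> omega
  | succ i ih =>
    rw [Function.iterate_succ_apply']
    obtain ⟨h1, h2, h3, h4, h5⟩ := ih
    generalize mstp^[i] st = w at *
    have e : (i + 1) * (size st + (i + 1) + 1) =
        i * (size st + i + 1) + (size st + 2 * i + 2) := by ring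
    rw [e]
    generalize i * (size st + i + 1) = K at *
    have k1 := size_snd_le (fst w)
    have k7 := len_add (snd (snd w)) (fst (snd w))
    have k10 := size_add (snd (snd w)) (fst (snd w))
    have q1 : fst (mstp w) = snd (fst w) := rfl
    have q2 : fst (snd (mstp w)) = node leaf (fst (snd w)) := rfl
    have q3 : snd (snd (mstp w)) =
      if fst (fst w) = leaf then snd (snd w) else add (snd (snd w)) (fst (snd w)) := rfl
    rw [q1, q2, q3]
    simp only [size, len]
    split_ifs
    · refine ⟨?_, ?_, ?_, ?_, ?_⟩ <;> omega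
    · refine ⟨?_, ?_, ?_, ?_, ?_⟩ <;> omega

theorem mstp_poly (st : Tr) (i : ℕ) : size (mstp^[i] st) ≤ 20 * (size st + i + 1) ^ 2 := by
  obtain ⟨h1, h2, _, _, h5⟩ := mstp_size st i
  have k1 := size_le_split (mstp^[i] st)
  have k2 := size_le_split (snd (mstp^[i] st))
  have h7 : size (mstp^[i] st) ≤ 2 * size st + 2 * i + 4 * (size st + i * (size st + i + 1)) + 7 := by
    omega
  refine h7.trans ?_
  nlinarith [Nat.zero_le (size st * i), Nat.zero_le (size st ^ 2), Nat.zero_le (i ^ 2)]

theorem size_mul (x y : Tr) : size (mul x y) ≤ 20 * (2 * size x + size y + 3) ^ 2 := by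
  have h := mstp_poly (node x (node y leaf)) (len x)
  have h1 := len_le_size x
  have h2 : size (mul x y) ≤ size (mstp^[len x] (node x (node y leaf))) :=
    (size_snd_le _).trans (size_snd_le _)
  refine (h2.trans h).trans (Nat.mul_le_mul_left _ (Nat.pow_le_pow_left ?_ 2))
  simp only [size]
  omega

theorem mstp' : FP mstp :=
  FP.node' (FP.snd' (FP.fst' FP.id')) (FP.node' (FP.node' FP.leaf' (FP.fst' (FP.snd' FP.id')))
    (FP.ite' (FP.fst' (FP.fst' FP.id')) (FP.snd' (FP.snd' FP.id'))
      (FP.add' (FP.snd' (FP.snd' FP.id')) (FP.fst' (FP.snd' FP.id')))))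

theorem mul' {X Y : Tr → Tr} (hX : FP X) (hY : FP Y) : FP (fun v => mul (X v) (Y v)) := by
  have h2 := FP.iterate_poly mstp' hX (FP.node' hX (FP.node' hY FP.leaf'))
    (20 * (Polynomial.X + 1) ^ 2) (fun x i => by
      simp only [Polynomial.eval_mul, Polynomial.eval_ofNat, Polynomial.eval_pow,
        Polynomial.eval_add, Polynomial.eval_X, Polynomial.eval_one]
      exact mstp_poly x i)
  exact FP.snd' (FP.snd' h2)

end Pool.Agent.H97.PW
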