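import Mathlib

/-!
# Small integer weights for a real linear form

Every real linear form in `N` variables agrees in sign, on the integer vectors with entries at most
`M`, with a list of at most `N` integer linear forms with entries at most `(2 N M + 1) ^ N`, read
lexicographically.
-/

set_option autoImplicit false

namespace Pool.Agent.H97.PW

/-- The first form of the list which does not vanish at `c` has the sign of `x`, and `x = 0` if
all of them vanish. -/
def SignIs {N : ℕ} : List (Fin N → ℤ) → (Fin N → ℤ) → ℝ → Prop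
  | [], _, x => x = 0
  | w :: W, c, x => (0 < ∑ i, c i * w i → 0 < x) ∧ (∑ i, c i * w i < 0 → x < 0) ∧
      (∑ i, c i * w i = 0 → SignIs W c x)

theorem signIs_scale {N : ℕ} {W : List (Fin N → ℤ)} {c : Fin N → ℤ} {x y a : ℝ} (ha : 0 < a)
    (hy : y = a * x) (h : SignIs W c y) : SignIs W c x := by
  induction W with
  | nil =>
    have h1 : y = 0 := h
    rw [hy] at h1
    exact (mul_eq_zero.1 h1).resolve_left ha.ne'
  | cons w W ih =>
    obtain ⟨h1, h2, h3⟩ := h
    refine ⟨fun h => ?_, fun h => ?_, fun h => ih (h3 h)⟩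
    · have := h1 h
      rw [hy] at this
      exact (mul_pos_iff_of_pos_left ha).1 this
    · have := h2 h
      rw [hy] at this
      exact (pos_iff_neg_of_mul_neg this).1 ha

private theorem dir (N T : ℕ) (hT : 1 ≤ T) (X : Fin N → ℝ) :
    ∃ (q q' : ℕ), q < q' ∧ q' ≤ T ^ N ∧
      ∀ i, |Int.fract ((q' : ℝ) * X i) - Int.fract ((q : ℝ) * X i)| < 1 / T := by
  have hT0 : (0 : ℝ) < T := by exact_mod_cast hT
  let f : ℕ → (Fin N → Fin T) := fun q i =>
    ⟨⌊(T : ℝ) * Int.fract ((q : ℝ) * X i)⌋₊, by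
      rw [Nat.floor_lt (mul_nonneg hT0.le (Int.fract_nonneg _))]
      have := Int.fract_lt_one ((q : ℝ) * X i)
      nlinarith⟩
  have hc : (Finset.univ : Finset (Fin N → Fin T)).card < (Finset.range (T ^ N + 1)).card := by
    simp
  obtain ⟨a, ha, b, hb, hab, he⟩ := Finset.exists_ne_map_eq_of_card_lt_of_maps_to hc
    (f := f) (fun a _ => Finset.mem_coe.2 (Finset.mem_univ _))
  have key : ∀ u v : ℕ, f u = f v → ∀ i,
      |Int.fract ((v : ℝ) * X i) - Int.fract ((u : ℝ) * X i)| < 1 / T := by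
    intro u v huv i
    have h1 : ⌊(T : ℝ) * Int.fract ((u : ℝ) * X i)⌋₊ = ⌊(T : ℝ) * Int.fract ((v : ℝ) * X i)⌋₊ := by
      have := congrFun huv i
      simpa [f, Fin.ext_iff] using this
    have a1 := Nat.floor_le (mul_nonneg hT0.le (Int.fract_nonneg ((u : ℝ) * X i)))
    have a2 := Nat.lt_floor_add_one ((T : ℝ) * Int.fract ((u : ℝ) * X i))
    have b1 := Nat.floor_le (mul_nonneg hT0.le (Int.fract_nonneg ((v : ℝ) * X i)))
    have b2 := Nat.lt_floor_add_one ((T : ℝ) * Int.fract ((v : ℝ) * X i))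
    rw [h1] at a1 a2
    rw [abs_lt, lt_div_iff₀ hT0, neg_div', div_lt_iff₀ hT0]
    constructor <;> nlinarith
  rw [Finset.mem_range] at ha hb
  rcases lt_or_gt_of_ne hab with h | h
  · exact ⟨a, b, h, by omega, key a b he⟩
  · exact ⟨b, a, h, by omega, key b a he.symm⟩

private theorem step (N T : ℕ) (hT : 1 ≤ T) (X : Fin N → ℝ) (hX : ∀ i, |X i| ≤ 1) :
    ∃ (Q : ℕ) (w : Fin N → ℤ), 1 ≤ Q ∧ (∀ i, |w i| ≤ (T : ℤ) ^ N) ∧
      (∀ i, |(Q : ℝ) * X i - w i| < 1 / T) ∧ (∀ i, X i = 0 → w i = 0) ∧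
      (∀ i, |X i| = 1 → (w i : ℝ) = Q * X i) := by
  obtain ⟨q, q', hq, hq', h⟩ := dir N T hT X
  have hT0 : (0 : ℝ) < T := by exact_mod_cast hT
  have hT1 : (1 : ℝ) / T ≤ 1 := by
    rw [div_le_one hT0]
    exact_mod_cast hT
  have hQ : ((q' - q : ℕ) : ℝ) = q' - q := by
    rw [Nat.cast_sub hq.le]
  have e : ∀ i, ((q' - q : ℕ) : ℝ) * X i - ((⌊(q' : ℝ) * X i⌋ - ⌊(q : ℝ) * X i⌋ : ℤ) : ℝ) =
      Int.fract ((q' : ℝ) * X i) - Int.fract ((q : ℝ) * X i) := by
    intro i
    rw [hQ, Int.cast_sub, Int.fract, Int.fract]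
    ring
  have h3 : ∀ i, |((q' - q : ℕ) : ℝ) * X i - ((⌊(q' : ℝ) * X i⌋ - ⌊(q : ℝ) * X i⌋ : ℤ) : ℝ)| <
      1 / T := by
    intro i
    rw [e i]
    exact h i
  refine ⟨q' - q, fun i => ⌊(q' : ℝ) * X i⌋ - ⌊(q : ℝ) * X i⌋, by omega, fun i => ?_, h3,
    fun i hi => by simp [hi], fun i hi => ?_⟩
  · have h4 := h3 i
    have h5 : |((⌊(q' : ℝ) * X i⌋ - ⌊(q : ℝ) * X i⌋ : ℤ) : ℝ)| < (T : ℝ) ^ N + 1 := by
      have a1 : |((q' - q : ℕ) : ℝ) * X i| ≤ (T : ℝ) ^ N := by
        rw [abs_mul, abs_of_nonneg (Nat.cast_nonneg _)]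
        calc ((q' - q : ℕ) : ℝ) * |X i| ≤ ((q' - q : ℕ) : ℝ) * 1 :=
              mul_le_mul_of_nonneg_left (hX i) (Nat.cast_nonneg _)
          _ ≤ (T : ℝ) ^ N := by
              rw [mul_one]
              exact_mod_cast (show q' - q ≤ T ^ N by omega)
      have a2 := abs_sub_abs_le_abs_sub ((⌊(q' : ℝ) * X i⌋ - ⌊(q : ℝ) * X i⌋ : ℤ) : ℝ)
        (((q' - q : ℕ) : ℝ) * X i)
      rw [abs_sub_comm] at a2
      linarith
    have h6 : |⌊(q' : ℝ) * X i⌋ - ⌊(q : ℝ) * X i⌋| < (T : ℤ) ^ N + 1 := by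
      exact_mod_cast h5
    exact Int.lt_add_one_iff.1 h6
  · have hz : ∃ z : ℤ, X i = z := by
      rcases (abs_eq (zero_le_one)).1 hi with h | h
      · exact ⟨1, by simp [h]⟩
      · exact ⟨-1, by simp [h]⟩
    obtain ⟨z, hz⟩ := hz
    have a1 : ⌊(q' : ℝ) * X i⌋ = q' * z := by
      rw [hz]
      exact_mod_cast Int.floor_intCast (R := ℝ) ((q' : ℤ) * z)
    have a2 : ⌊(q : ℝ) * X i⌋ = q * z := by
      rw [hz]
      exact_mod_cast Int.floor_intCast (R := ℝ) ((q : ℤ) * z)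
    show ((⌊(q' : ℝ) * X i⌋ - ⌊(q : ℝ) * X i⌋ : ℤ) : ℝ) = ((q' - q : ℕ) : ℝ) * X i
    rw [a1, a2, hQ, hz]
    push_cast
    ring

/-- Small integer weights. -/
theorem weights (N : ℕ) (X : Fin N → ℝ) (M : ℕ) :
    ∃ W : List (Fin N → ℤ), W.length ≤ N ∧
      (∀ w ∈ W, ∀ i, |w i| ≤ (2 * N * M + 1 : ℤ) ^ N) ∧
      ∀ c : Fin N → ℤ, (∀ i, |c i| ≤ M) → SignIs W c (∑ i, c i * X i) := by
  classical
  suffices H : ∀ (n : ℕ) (X : Fin N → ℝ), (Finset.univ.filter fun i => X i ≠ 0).card ≤ n →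
      ∃ W : List (Fin N → ℤ), W.length ≤ n ∧
      (∀ w ∈ W, ∀ i, |w i| ≤ (2 * N * M + 1 : ℤ) ^ N) ∧
      ∀ c : Fin N → ℤ, (∀ i, |c i| ≤ M) → SignIs W c (∑ i, c i * X i) by
    refine H N X ((Finset.card_filter_le _ _).trans ?_)
    simp
  intro n
  induction n with
  | zero =>
    intro X hX
    refine ⟨[], le_rfl, by simp, fun c _ => ?_⟩
    have h0 : ∀ i, X i = 0 := by
      intro i
      by_contra h
      have : i ∈ Finset.univ.filter fun i => X i ≠ 0 := by simp [h]
      rw [Nat.le_zero, Finset.card_eq_zero] at hX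
      rw [hX] at this
      simp at this
    show (∑ i, (c i : ℝ) * X i) = 0
    simp [h0]
  | succ n ih =>
    intro X hX
    by_cases h0 : ∀ i, X i = 0
    · refine ⟨[], by simp, by simp, fun c _ => ?_⟩
      show (∑ i, (c i : ℝ) * X i) = 0
      simp [h0]
    push Not at h0
    obtain ⟨j, hj⟩ := h0
    have hne : (Finset.univ : Finset (Fin N)).Nonempty := ⟨j, Finset.mem_univ _⟩
    obtain ⟨i0, -, hi0⟩ := Finset.exists_max_image Finset.univ (fun i => |X i|) hne
    set m := |X i0| with hm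
    have hm0 : 0 < m := lt_of_lt_of_le (abs_pos.2 hj) (hi0 j (Finset.mem_univ _))
    set T : ℕ := 2 * N * M + 1 with hT
    have hT1 : 1 ≤ T := by omega
    have hT0 : (0 : ℝ) < T := by exact_mod_cast hT1
    obtain ⟨Q, w, hQ, hw, hap, hz, hex⟩ := step N T hT1 (fun i => X i / m) (fun i => by
      rw [abs_div, abs_of_pos hm0, div_le_one hm0]
      exact hi0 i (Finset.mem_univ _))
    have hQ0 : (0 : ℝ) < Q := by exact_mod_cast hQ
    set Y : Fin N → ℝ := fun i => Q * (X i / m) - w i with hY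
    have hYi : Y i0 = 0 := by
      have := hex i0 (by
        rw [abs_div, abs_of_pos hm0, ← hm, div_self hm0.ne'])
      show (Q : ℝ) * (X i0 / m) - w i0 = 0
      rw [this, sub_self]
    have hYz : ∀ i, X i = 0 → Y i = 0 := by
      intro i hi
      have := hz i (by rw [hi, zero_div])
      show (Q : ℝ) * (X i / m) - w i = 0
      rw [this, hi]
      simp
    obtain ⟨W, hl, hb, hs⟩ := ih Y (by
      have hsub : (Finset.univ.filter fun i => Y i ≠ 0) ⊆
          (Finset.univ.filter fun i => X i ≠ 0).erase i0 := by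
        intro i hi
        rw [Finset.mem_filter] at hi
        rw [Finset.mem_erase, Finset.mem_filter]
        refine ⟨fun h => hi.2 (h ▸ hYi), Finset.mem_univ _, fun h => hi.2 (hYz i h)⟩
      have h1 := Finset.card_le_card hsub
      have h2 : i0 ∈ Finset.univ.filter fun i => X i ≠ 0 := by
        rw [Finset.mem_filter]
        exact ⟨Finset.mem_univ _, abs_pos.1 hm0⟩
      rw [Finset.card_erase_of_mem h2] at h1
      omega)
    refine ⟨w :: W, by simpa using hl, ?_, fun c hc => ?_⟩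
    · intro v hv i
      rcases List.mem_cons.1 hv with rfl | hv
      · have := hw i
        push_cast [hT] at this
        exact this
      · exact hb v hv i
    have eq1 : (Q : ℝ) / m * ∑ i, (c i : ℝ) * X i =
        ((∑ i, c i * w i : ℤ) : ℝ) + ∑ i, (c i : ℝ) * Y i := by
      push_cast
      rw [Finset.mul_sum, ← Finset.sum_add_distrib]
      refine Finset.sum_congr rfl fun i _ => ?_
      simp only [hY]
      ring
    have hsmall : |∑ i, (c i : ℝ) * Y i| < 1 := by
      have hN : 0 < N := Fin.pos j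
      calc |∑ i, (c i : ℝ) * Y i| ≤ ∑ i, |(c i : ℝ) * Y i| := Finset.abs_sum_le_sum_abs _ _
        _ ≤ ∑ _i : Fin N, (M : ℝ) * (1 / T) := by
            refine Finset.sum_le_sum fun i _ => ?_
            rw [abs_mul]
            refine mul_le_mul ?_ (hap i).le (abs_nonneg _) (Nat.cast_nonneg _)
            exact_mod_cast hc i
        _ = (N * M : ℝ) / T := by
            rw [Finset.sum_const, Finset.card_univ, Fintype.card_fin, nsmul_eq_mul]
            ring
        _ < 1 := by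
            rw [div_lt_one hT0, hT]
            push_cast
            have : (0 : ℝ) ≤ N * M := by positivity
            linarith
    have hQm : 0 < (Q : ℝ) / m := div_pos hQ0 hm0
    refine ⟨fun h => ?_, fun h => ?_, fun h => ?_⟩
    · have h1 : (1 : ℝ) ≤ ((∑ i, c i * w i : ℤ) : ℝ) := by exact_mod_cast h
      have h2 := (abs_lt.1 hsmall).1
      have h3 : 0 < (Q : ℝ) / m * ∑ i, (c i : ℝ) * X i := by rw [eq1]; linarith
      exact (mul_pos_iff_of_pos_left hQm).1 h3
    · have h1 : ((∑ i, c i * w i : ℤ) : ℝ) ≤ -1 := by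
        have : (∑ i, c i * w i : ℤ) ≤ -1 := by omega
        exact_mod_cast this
      have h2 := (abs_lt.1 hsmall).2
      have h3 : (Q : ℝ) / m * ∑ i, (c i : ℝ) * X i < 0 := by rw [eq1]; linarith
      exact (pos_iff_neg_of_mul_neg h3).1 hQm
    · refine signIs_scale hQm (y := ∑ i, (c i : ℝ) * Y i) ?_ (hs c hc)
      rw [eq1, h]
      simp

end Pool.Agent.H97.PW
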